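import Pool.Agent.H88PP.Final

/-!
`pp` and `cov` at a cardinal of countable cofinality: the role of thin products.
-/

namespace Pool.Agent.Results.MP_62e0a5_lc.ThinProducts

open Cardinal H88PP

/-- Let `lam = #α` have countable cofinality, witnessed by an arbitrary increasing sequence `Λ`
(with `ℵ₀ ≤ Λ 0`), and suppose `μ ^ ℵ₀ < lam` for all `μ < lam`.  Then
* `pp lam ≤ thinPP ≤ cov`;
* if `thinPP < lam^{+ω}` then `cov = thinPP`;
* if `pp lam < lam^{+ω}` then `pp lam = cov` iff every thin product of regular cardinals below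
  `lam` is dominated, on all countable sets of coordinates and modulo bounded, by `pp lam`
  functions;
* for an arbitrary `θ ≥ lam` satisfying the two covering properties `G1`, `G2`: if every thin
  product is so dominated by `θ` functions, then `cov ≤ θ`. -/
theorem result (α : Type) (hpow : ∀ μ : Cardinal.{0}, μ < #α → μ ^ ℵ₀ < #α)
    (Λ : ℕ → Cardinal.{0}) (hΛ : Monotone Λ) (hΛ0 : ℵ₀ ≤ Λ 0) (hΛlt : ∀ j, Λ j < #α)
    (hΛc : ∀ μ : Cardinal.{0}, μ < #α → ∃ j, μ < Λ j) :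
    (sSup (ppSet α) ≤ thinPP Λ #α ∧ thinPP Λ #α ≤ sInf (covSet α)) ∧
    (∀ n : ℕ, thinPP Λ #α ≤ (Order.succ^[n]) #α → sInf (covSet α) = thinPP Λ #α) ∧
    (∀ n : ℕ, sSup (ppSet α) ≤ (Order.succ^[n]) #α →
      (sSup (ppSet α) = sInf (covSet α) ↔
        ∀ (ι : Type) (c : ι → Cardinal.{0}), ThinFam Λ #α c →
          UnifCof Λ c (sSup (ppSet α)))) ∧
    (∀ θ : Cardinal.{0}, #α ≤ θ → G1 #α θ.ord.ToType → G2 #α θ.ord.ToType →
      (∀ (ι : Type) (c : ι → Cardinal.{0}), ThinFam Λ #α c → UnifCof Λ c θ) →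
        sInf (covSet α) ≤ θ) := by
  have hinf : ℵ₀ < #α := lt_of_le_of_lt hΛ0 (hΛlt 0)
  have hcc : 𝔠 < #α := by
    have := hpow 2 (lt_of_lt_of_le (natCast_lt_aleph0 (n := 2)) hinf.le)
    rwa [two_power_aleph0] at this
  have ha1 : ℵ₁ ≤ #α := aleph_one_le_continuum.trans hcc.le
  have hpp : ∀ θ : Cardinal.{0},
      (∀ (ι : Type) (c : ι → Cardinal.{0}), ThinFam Λ #α c → UnifCof Λ c θ) →
      sSup (ppSet α) ≤ θ := fun θ hθ =>
    csSup_le' fun θ' hθ' => le_of_mem_ppSet hΛ0 hΛ hΛlt hθ hθ'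
  have hspec : ∀ (ι : Type) (c : ι → Cardinal.{0}), ThinFam Λ #α c →
      UnifCof Λ c (thinPP Λ #α) := fun ι c hc => thinPP_spec hinf hΛc c hc
  have hgt : #α < thinPP Λ #α := lt_of_unifCof hΛ0 hΛ hΛlt hΛc hspec
  have hmain : ∀ θ : Cardinal.{0}, #α ≤ θ → G1 #α θ.ord.ToType → G2 #α θ.ord.ToType →
      (∀ (ι : Type) (c : ι → Cardinal.{0}), ThinFam Λ #α c → UnifCof Λ c θ) →
        sInf (covSet α) ≤ θ := fun θ h1 h2 h3 h4 =>
    cov_le_of_unifCof hΛ0 hΛ hΛlt hΛc hpow h1 h2 h3 h4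
  have hle := thinPP_le_cov (Λ := Λ) hinf hΛc
  have heq : ∀ n : ℕ, thinPP Λ #α ≤ (Order.succ^[n]) #α → sInf (covSet α) = thinPP Λ #α := by
    intro n hn
    induction n with
    | zero => exact absurd hn (not_le.2 hgt)
    | succ n ih =>
      rcases le_or_gt (thinPP Λ #α) ((Order.succ^[n]) #α) with h | h
      · exact ih h
      · have h' : (Order.succ^[n + 1]) #α ≤ thinPP Λ #α := by
          rw [Function.iterate_succ_apply']
          exact Order.succ_le_of_lt h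
        have he : thinPP Λ #α = (Order.succ^[n + 1]) #α := le_antisymm hn h'
        refine le_antisymm ?_ hle
        refine hmain _ hgt.le ?_ ?_ hspec
        · rw [he]; exact G1_iterate hinf.le hcc.le (n + 1)
        · rw [he]; exact G2_iterate ha1 hΛlt hΛc (n + 1)
  refine ⟨⟨hpp _ hspec, hle⟩, heq, ?_, hmain⟩
  intro n hn
  constructor
  · intro h ι c hc
    rw [h]
    exact unifCof_cov hinf hΛc c fun i => ⟨(hc.1 i).1, (hc.1 i).2.2⟩
  · intro h
    have h1 : thinPP Λ #α ≤ sSup (ppSet α) := csInf_le' h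
    have h2 : sSup (ppSet α) = thinPP Λ #α := le_antisymm (hpp _ hspec) h1
    rw [h2]
    exact (heq n (by rw [← h2]; exact hn)).symm

end Pool.Agent.Results.MP_62e0a5_lc.ThinProducts
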