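import Pool.Agent.H88PP.AllExt

/-!
`pp` and `cov` at a cardinal of countable cofinality: universal families of functions.
-/

namespace Pool.Agent.Results.MP_62e0a5_lc.UniversalFamily

open Cardinal Ordinal H88PP

/-- Let `lam = #α` be of countable cofinality and uncountable (no arithmetic hypothesis).  Then
* `pp lam ≤ allPP lam ≤ cov`;
* if `allPP lam < lam^{+ω₁}` then `cov = allPP lam`;
* if `pp lam < lam^{+ω₁}` then `pp lam = cov` iff for every family of regular cardinals below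
  `lam` some `pp lam` functions dominate on all countable sets of coordinates modulo bounded;
* for an arbitrary `θ ≥ lam` with the covering property `G2`: if `θ` functions suffice for all
  families of regular cardinals below `lam`, then `cov ≤ θ`. -/
theorem result (α : Type) (h0 : ℵ₀ < #α)
    (hf : ∃ f : ℕ → Cardinal.{0}, (∀ n, f n < #α) ∧
      ∀ μ : Cardinal.{0}, μ < #α → ∃ n, μ < f n) :
    (sSup (ppSet α) ≤ allPP #α ∧ allPP #α ≤ sInf (covSet α)) ∧
    (∀ β : Ordinal.{0}, #α = ℵ_ β → allPP #α < ℵ_ (β + ω_ 1) →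
      sInf (covSet α) = allPP #α) ∧
    (∀ β : Ordinal.{0}, #α = ℵ_ β → sSup (ppSet α) < ℵ_ (β + ω_ 1) →
      (sSup (ppSet α) = sInf (covSet α) ↔
        ∀ (ι : Type) (c : ι → Cardinal.{0}), (∀ i, (c i).IsRegular ∧ c i < #α) →
          Suff #α c (sSup (ppSet α)))) ∧
    (∀ θ : Cardinal.{0}, #α ≤ θ → G2 #α θ.ord.ToType →
      (∀ (ι : Type) (c : ι → Cardinal.{0}), (∀ i, (c i).IsRegular ∧ c i < #α) →
        Suff #α c θ) → sInf (covSet α) ≤ θ) := by
  obtain ⟨f, hf1, hf2⟩ := hf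
  obtain ⟨Λ, hΛ, hΛ0, hΛlt, hΛc⟩ := exists_seq h0 f hf1 hf2
  have hthin : ∀ θ : Cardinal.{0}, (∀ (ι : Type) (c : ι → Cardinal.{0}),
      (∀ i, (c i).IsRegular ∧ c i < #α) → Suff #α c θ) →
      ∀ (ι : Type) (c : ι → Cardinal.{0}), ThinFam Λ #α c → UnifCof Λ c θ :=
    fun θ h ι c hc => unifCof_of_suff hΛc (h ι c fun i => ⟨(hc.1 i).1, (hc.1 i).2.2⟩)
  have hpp : ∀ θ : Cardinal.{0}, (∀ (ι : Type) (c : ι → Cardinal.{0}),
      (∀ i, (c i).IsRegular ∧ c i < #α) → Suff #α c θ) → sSup (ppSet α) ≤ θ := fun θ hθ =>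
    csSup_le' fun θ' hθ' => le_of_mem_ppSet hΛ0 hΛ hΛlt (hthin θ hθ) hθ'
  have hcov : ∀ (ι : Type) (c : ι → Cardinal.{0}), (∀ i, (c i).IsRegular ∧ c i < #α) →
      Suff #α c (sInf (covSet α)) := fun ι c hc =>
    suff_of_unifCof hΛlt (unifCof_cov h0 hΛc c hc)
  have hspec : ∀ (ι : Type) (c : ι → Cardinal.{0}), (∀ i, (c i).IsRegular ∧ c i < #α) →
      Suff #α c (allPP #α) := by
    have hne : {θ : Cardinal.{0} | ∀ (ι : Type) (c : ι → Cardinal.{0}),
        (∀ i, (c i).IsRegular ∧ c i < #α) → Suff #α c θ}.Nonempty := ⟨_, hcov⟩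
    exact csInf_mem hne
  have hle : allPP #α ≤ sInf (covSet α) := csInf_le' hcov
  have hgt : #α < allPP #α := lt_of_unifCof hΛ0 hΛ hΛlt hΛc (hthin _ hspec)
  have hmain : ∀ θ : Cardinal.{0}, #α ≤ θ → G2 #α θ.ord.ToType →
      (∀ (ι : Type) (c : ι → Cardinal.{0}), (∀ i, (c i).IsRegular ∧ c i < #α) →
        Suff #α c θ) → sInf (covSet α) ≤ θ := fun θ h1 h2 h3 =>
    cov_le_of_all hΛ0 hΛ hΛlt hΛc h1 h2 fun ι c hc => unifCof_of_suff hΛc (h3 ι c hc)
  have heq : ∀ β : Ordinal.{0}, #α = ℵ_ β → allPP #α < ℵ_ (β + ω_ 1) →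
      sInf (covSet α) = allPP #α := by
    intro β hβ hlt
    refine le_antisymm ?_ hle
    refine hmain _ hgt.le ?_ hspec
    obtain ⟨ε, hε⟩ := mem_range_aleph_iff.2 (h0.le.trans hgt.le)
    have h1 : ε < β + ω_ 1 := aleph_lt_aleph.1 (by rw [hε]; exact hlt)
    have h2 : β ≤ ε := aleph_le_aleph.1 (by rw [hε, ← hβ]; exact hgt.le)
    have h3 : ε - β < ω_ 1 := by
      rw [← add_lt_add_iff_left β, Ordinal.add_sub_cancel_of_le h2]
      exact h1
    have h4 : (ε - β).card ≤ ℵ₀ := by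
      have h5 : (ε - β).card < ℵ_ 1 := lt_omega_iff_card_lt.1 h3
      exact Order.lt_succ_iff.1 (by rwa [succ_aleph0])
    have ha1 : ℵ₁ ≤ ℵ_ β := by
      rw [← succ_aleph0, ← hβ]
      exact Order.succ_le_of_lt h0
    have h6 := G2s_all ha1 (by rw [← hβ]; exact hΛlt) (by rw [← hβ]; exact hΛc) (ε - β) h4
    rw [Ordinal.add_sub_cancel_of_le h2, hε, ← hβ] at h6
    exact G2_of_G2s h6
  refine ⟨⟨hpp _ hspec, hle⟩, heq, ?_, hmain⟩
  intro β hβ hn
  constructor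
  · intro h
    rw [h]
    exact hcov
  · intro h
    have h1 : allPP #α ≤ sSup (ppSet α) := csInf_le' h
    have h2 : sSup (ppSet α) = allPP #α := le_antisymm (hpp _ hspec) h1
    rw [h2]
    exact (heq β hβ (by rw [← h2]; exact hn)).symm

end Pool.Agent.Results.MP_62e0a5_lc.UniversalFamily
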